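import Mathlib
import Pool.Agent.Run7.h17.PTVar

/-!
# Goldbach representations: an asymptotic formula for the mean square over the classes of a summand modulo all `q ≤ Q`

The analogue of the theorem of Barban, Davenport, Halberstam, Montgomery and Hooley for the representations
`s 1 = α 1 n + p 1, ..., s k = α k n + p k` with the same `n`, which is counted with an arbitrary weight `θ(n)`, for example
`Λ(n)`: for almost all vectors of integers `s i` from families of nearly minimal additive energy (for example random even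
integers, random elements of arbitrary sets of `N / log ^ C N` integers, random even values of a polynomial), let
`R(n) = θ(n) (∏ Λ(s i - α i n) - ∏ model(s i - α i n))`. Then the sum over all `q ≤ Q` and all classes `b` modulo `q` of the
squares of the sums of `R` over the class is `Q ∑ R(n) ^ 2 + O(N ^ 2 / log ^ U N)`, for all `Q` and all lengths.

Used: the starting files `Pool.Agent.H373R2.T7` (sieve model and energies), `Pool.Agent.H560R3.GB` (von Mangoldt's
function along families of small energy) and the large sieve of `Pool.Agent.Helper112`. From Mathlib: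
`ArithmeticFunction.vonMangoldt` is von Mangoldt's function `Λ`; `Finset.Icc 1 x` are the integers from `1` to `x`,
`Finset.range q` those from `0` to `q - 1`.
-/

set_option autoImplicit false

namespace Pool.Agent.Results.MP_629a14_nt.MeanSquareOverClasses

open Finset

/-- The additive energy of order `p` of the family `s 1, ..., s x`: the number of solutions of
`s (v 1) + ... + s (v p) = s (w 1) + ... + s (w p)` with all `v i`, `w i` in `{1, ..., x}`. -/
def energy (p x : ℕ) (s : ℕ → ℕ) : ℕ :=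
  (((Fintype.piFinset fun _ : Fin p => Icc 1 x) ×ˢ (Fintype.piFinset fun _ : Fin p => Icc 1 x)).filter
    (fun q => ∑ i, s (q.1 i) = ∑ i, s (q.2 i))).card

/-- The family `s 1, ..., s x` lies in `[0, B N]`, and its additive energy of some order `p ≤ h` is at most
`log ^ C N` times `x ^ (2 p) / N`. -/
def Spread (h B C N x : ℕ) (s : ℕ → ℕ) : Prop :=
  (∀ m ∈ Icc 1 x, s m ≤ B * N) ∧
    ∃ p : ℕ, 1 ≤ p ∧ p ≤ h ∧ (energy p x s : ℝ) * N ≤ Real.log N ^ C * (x : ℝ) ^ (2 * p)

/-- The sieve model of von Mangoldt's function: the integers without prime factors up to `z` have the weight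
`∏_{p ≤ z} (1 - 1 / p)⁻¹`, the other integers the weight `0`. -/
noncomputable def model (z n : ℕ) : ℝ :=
  if ∀ p ∈ (Icc 1 z).filter Nat.Prime, ¬ p ∣ n then (∏ p ∈ (Icc 1 z).filter Nat.Prime, (1 - 1 / (p : ℝ)))⁻¹ else 0

/-- `R(n) = θ(n) (∏_i Λ(s i - α i n) - ∏_i model(s i - α i n))` if `α i n < s i` for all `i`, and `0` otherwise. -/
noncomputable def R {k : ℕ} (z : ℕ) (θ : ℕ → ℝ) (α s : Fin k → ℕ) (n : ℕ) : ℝ :=
  if ∀ i, α i * n < s i then
    θ n * (∏ i, ArithmeticFunction.vonMangoldt (s i - α i * n) - ∏ i, model z (s i - α i * n)) else 0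

/-- For all lengths `X` and all `Q`: the sum over the moduli `q ≤ Q` and the classes `b` modulo `q` of the squares of the
sums of `R` over the `n ≤ X` in the class is `Q ∑_{n ≤ X} R(n) ^ 2`, up to at most `N ^ 2 / log ^ U N`. -/
def MeanSquare (U N z : ℕ) {k : ℕ} (θ : ℕ → ℝ) (α s : Fin k → ℕ) : Prop :=
  ∀ X Q : ℕ,
    |∑ q ∈ Icc 1 Q, ∑ b ∈ range q, (∑ n ∈ (Icc 1 X).filter (fun n => n % q = b), R z θ α s n) ^ 2 -
      Q * ∑ n ∈ Icc 1 X, R z θ α s n ^ 2| ≤ (N : ℝ) ^ 2 / Real.log N ^ U

lemma energy_eq (h x : ℕ) (s : ℕ → ℕ) :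
    Pool.Agent.H373R2.T7.energy h x (fun m => (s m : ℤ)) = energy h x s := by
  unfold energy Pool.Agent.H373R2.T7.energy
  congr 1
  apply filter_congr
  intro q _
  change (∑ i, ((s (q.1 i) : ℕ) : ℤ) = ∑ i, ((s (q.2 i) : ℕ) : ℤ)) ↔ _
  constructor
  · intro h; exact_mod_cast h
  · intro h; exact_mod_cast h

lemma spread_energy (h B C N x : ℕ) (s : ℕ → ℕ) (hs : Spread h B C N x s) :
    (Pool.Agent.H373R2.T7.energy h x (fun m => (s m : ℤ)) : ℝ) * N ≤ Real.log N ^ C * (x : ℝ) ^ (2 * h) := by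
  obtain ⟨_, p, _, hp, hE⟩ := hs
  rw [← energy_eq] at hE
  exact Run7.h223.LE.spread_mono C p h x N hp _ hE

open Classical in
/-- Let `k ≥ 1` and `h, B, C, κ, U` be fixed. There is `B₀` such that for all `E` and all large `N` the following
holds for all families `s i 1, ..., s i (x i)`, `i < k`, of integers in `[0, B N]` whose additive energy of some order
`≤ h` is minimal up to the factor `log ^ C N`, all multipliers `α i ≥ 1`, all `z` between `log ^ B₀ N` and `log ^ E N`, and
all families of at most `log ^ κ N` weights `θ l`, bounded by `log ^ κ N` on `[1, B N]`. For all vectors `(s i (m i))_i`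
of members of the families but at most the proportion `1 / log ^ U N` of them, for all `l`, the asymptotic formula
`MeanSquare` for the mean square over the classes holds, for all lengths and all `Q`. -/
theorem result (k h B C κ U : ℕ) (hk : 1 ≤ k) : ∃ B₀ : ℕ, ∀ E : ℕ, ∃ N₀ : ℕ, ∀ N : ℕ, N₀ ≤ N →
    ∀ (x : Fin k → ℕ) (s : Fin k → ℕ → ℕ), (∀ i, Spread h B C N (x i) (s i)) →
    ∀ α : Fin k → ℕ, (∀ i, 1 ≤ α i) → ∀ z : ℕ, Real.log N ^ B₀ ≤ z → (z : ℝ) ≤ Real.log N ^ E →
    ∀ L : ℕ, (L : ℝ) ≤ Real.log N ^ κ → ∀ θ : Fin L → ℕ → ℝ,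
    (∀ l n, 1 ≤ n → n ≤ B * N → |θ l n| ≤ Real.log N ^ κ) →
    (((Fintype.piFinset (fun i => Icc 1 (x i))).filter (fun m : Fin k → ℕ =>
      ¬ ∀ l, MeanSquare U N z (θ l) α (fun i => s i (m i)))).card : ℝ) ≤
      (∏ i, (x i : ℝ)) / Real.log N ^ U := by
  obtain ⟨B0, hB0⟩ := Pool.Agent.Run7.h17.PT.tuple_var k h B C κ U hk
  refine ⟨B0, fun E => ?_⟩
  obtain ⟨N0, h1⟩ := hB0 E
  refine ⟨N0, fun N hN x s hs α hα z hz1 hz2 L hL θ hθ => ?_⟩
  have key := h1 N hN x (fun i m => (s i m : ℤ)) (fun i m hm => by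
      rw [Nat.abs_cast]
      exact_mod_cast (hs i).1 m hm) (fun i => spread_energy h B C N (x i) (s i) (hs i)) (fun i => -(α i : ℤ))
    (fun i => by have := hα i; omega) z hz1 hz2 L hL θ (fun l n hn h2 => hθ l n hn (by
      have h3 := h2 ⟨0, hk⟩
      have h4 : (-(α ⟨0, hk⟩ : ℤ)).natAbs = α ⟨0, hk⟩ := by omega
      rw [h4] at h3
      exact (Nat.le_mul_of_pos_left _ (hα _)).trans h3))
  refine le_trans (Nat.cast_le.mpr (card_le_card ?_)) key
  intro m hm
  rw [mem_filter] at hm ⊢
  have hmm : ∀ i, s i (m i) ≤ B * N := fun i => (hs i).1 (m i) (Fintype.mem_piFinset.mp hm.1 i)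
  refine ⟨hm.1, fun hgood => hm.2 ?_⟩
  intro l X Q
  set α' : Fin k → ℤ := fun i => -(α i : ℤ) with hα'
  have hna : ∀ i, (α' i).natAbs = α i := fun i => by rw [hα']; simp only; omega
  set tp := Pool.Agent.Run7.h17.JB.top (fun i => (α' i).natAbs) univ (B * N) with htp
  have hI : (univ : Finset (Fin k)).Nonempty := ⟨⟨0, hk⟩, mem_univ _⟩
  have h5 := hgood l (min X tp) (fun i => (Nat.mul_le_mul_left _ (min_le_right _ _)).trans
    (Pool.Agent.Run7.h17.JB.top_spec (fun i => (α' i).natAbs) univ (B * N) i (mem_univ i))) Q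
  have e1 : ∀ n, θ l n * Pool.Agent.Run7.h17.PT.df z α' (fun i => (s i (m i) : ℤ)) n =
      R z (θ l) α (fun i => s i (m i)) n := by
    intro n
    rw [hα', Pool.Agent.Run7.h17.PT.df_neg]
    unfold R
    rw [mul_ite, mul_zero]
    rfl
  have hR0 : ∀ n, ¬ n ≤ tp → R z (θ l) α (fun i => s i (m i)) n = 0 := by
    intro n hn
    unfold R
    rw [if_neg]
    intro h6
    apply hn
    refine Pool.Agent.Run7.h17.JB.le_top (fun i => (α' i).natAbs) (fun i => by rw [hna i]; exact hα i) univ hI (B * N) n ?_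
    intro i _
    have h7 := h6 i
    simp only at h7
    have h8 := hmm i
    rw [hna i]
    omega
  have hres : ∀ f : ℕ → ℝ, (∀ n, ¬ n ≤ tp → f n = 0) → ∑ n ∈ Icc 1 (min X tp), f n = ∑ n ∈ Icc 1 X, f n := by
    intro f hf
    have e4 : Icc 1 (min X tp) = (Icc 1 X).filter (fun n => n ≤ tp) := by
      ext n
      rw [mem_filter, mem_Icc, mem_Icc, le_min_iff]
      tauto
    rw [e4, sum_filter]
    refine sum_congr rfl fun n _ => ?_
    split_ifs with h6
    · rfl
    · exact (hf n h6).symm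
  have e2 : ∑ n ∈ Icc 1 (min X tp), (θ l n * Pool.Agent.Run7.h17.PT.df z α' (fun i => (s i (m i) : ℤ)) n) ^ 2 =
      ∑ n ∈ Icc 1 X, R z (θ l) α (fun i => s i (m i)) n ^ 2 := by
    rw [← hres (fun n => R z (θ l) α (fun i => s i (m i)) n ^ 2) (fun n hn => by
      rw [hR0 n hn]
      norm_num)]
    exact sum_congr rfl fun n _ => by rw [e1 n]
  have e3 : ∀ q b, (∑ n ∈ Icc 1 (min X tp), if n % q = b then
      θ l n * Pool.Agent.Run7.h17.PT.df z α' (fun i => (s i (m i) : ℤ)) n else 0) =
      ∑ n ∈ (Icc 1 X).filter (fun n => n % q = b), R z (θ l) α (fun i => s i (m i)) n := by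
    intro q b
    rw [sum_filter, ← hres (fun n => if n % q = b then R z (θ l) α (fun i => s i (m i)) n else 0) (fun n hn => by
      rw [hR0 n hn, ite_self])]
    refine sum_congr rfl fun n _ => ?_
    rw [e1 n]
  rw [e2, sum_congr rfl fun q _ => sum_congr rfl fun b _ => by rw [e3 q b]] at h5
  exact h5

end Pool.Agent.Results.MP_629a14_nt.MeanSquareOverClasses
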