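import Pool.Agent.Run7.h931.GB.Clw
import Pool.Agent.Run7.h931.GB.Sgr

/-!
# The order of magnitude of the number of representations by a prime and a perturbed prime, for every integer

The question is whether the number of representations of EVERY large even `n` as a sum of two primes has the order of magnitude
`n^2 / (φ(n) log^2 n)`. Here one of the two primes is replaced by a perturbed prime: the first `m` primes are replaced by summands
`s 0, ..., s (m - 1)`, where `s j` is congruent to the `j`-th prime modulo `M` (the product of the primes `≤ w`, or any multiple with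
the same prime divisors), and otherwise runs through a window of its own; more generally the residues of the `s j` are prescribed
arbitrarily and their number `m` is arbitrary. For almost all choices the theorem gives the order of magnitude of the number of
representations of EVERY integer `n` in `(N, 2 N]`, from above and from below and with the best constants: if the expected number of
representations is `l log N` with bounded `l = l n`, the number of representations is `x log N` with `x log (x / l) - x + l ≤ 1 + ε`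
(for `l > 1` this means `c(l) l ≤ x ≤ C(l) l` with constants `0 < c(l) < 1 < C(l)`, for `l < 1` there is no lower bound), and if `l`
is large, the formula of Hardy and Littlewood holds for EVERY `n` with an error of at most `ε`. Both bounds are attained in every
residue class modulo `M`, the numbers of exceptions to all stronger bounds are determined, and for the perturbed primes
`l n log^2 N` is `m` times the singular series of `n` (over the primes up to `w`), hence of the order of magnitude `m n / φ(n)` up to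
the prime divisors of `n` above `w`.

Method: exponential moments and tails for every `n`; second moments of the number of the `n` in a residue class weighted by
`z ^ (number of representations)` and truncated; prime pairs with the correct constant in residue classes and windows for almost all
differences.
-/

set_option autoImplicit false

namespace Pool.Agent.Results.MP_629a14_nt.SharpOrderOfMagnitude

open Finset

/-- The number of the representations of `n` as the sum of a prime and one of `s 0, ..., s (m - 1)`: the number of the `j` for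
which `n - s j` is a prime. (Below, `n > N` and `s j ≤ N / 2`.) -/
def reps {m : ℕ} (s : Fin m → ℕ) (n : ℕ) : ℕ := (univ.filter fun j => (n - s j).Prime).card

/-- The vectors of summands: `s j` is in the window `(b j, b j + q]` and `s j ≡ c j` modulo `M`. -/
def summands {m : ℕ} (M q : ℕ) (c b : Fin m → ℕ) : Finset (Fin m → ℕ) :=
  Fintype.piFinset fun j => (Ioc (b j) (b j + q)).filter fun v => v ≡ c j [MOD M]

open Classical in
/-- `M / φ(M)` times the number of the `j` for which `n - c j` is coprime to `M`. (The expected number of representations of `n` is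
`size M c n / log N`.) -/
noncomputable def size {m : ℕ} (M : ℕ) (c : Fin m → ℕ) (n : ℕ) : ℝ :=
  (M : ℝ) / Nat.totient M * (univ.filter fun j => IsCoprime ((n : ℤ) - c j) (M : ℤ)).card

/-- `size / log^2 N`: the expected number of representations of `n`, divided by `log N`. -/
noncomputable def level {m : ℕ} (N M : ℕ) (c : Fin m → ℕ) (n : ℕ) : ℝ := size M c n / Real.log N ^ 2

/-- The rate `x log (x / l) - x + l`; it vanishes for `x = l`, decreases for `0 ≤ x ≤ l` and increases for `x ≥ l`. -/
noncomputable def rate (l x : ℝ) : ℝ := x * Real.log (x / l) - x + l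

/-- The singular series `2 ∏ (1 - 1 / (p - 1)^2) ∏ (p - 1) / (p - 2)` (the second product over the `p` dividing `n`) over the primes
`2 < p ≤ w`. -/
noncomputable def singular (w n : ℕ) : ℝ := 2 * ∏ p ∈ (Icc 3 w).filter Nat.Prime,
  ((1 - 1 / ((p : ℝ) - 1) ^ 2) * if p ∣ n then ((p : ℝ) - 1) / (p - 2) else 1)

/-- The order of magnitude for every integer `N < n ≤ 2 N`. -/
def Everywhere {m : ℕ} (N : ℕ) (Λ ε : ℝ) (l : ℕ → ℝ) (s : Fin m → ℕ) : Prop := ∀ n : ℕ, N < n → n ≤ 2 * N →
  (l n ≤ Λ → rate (l n) (reps s n / Real.log N) ≤ 1 + ε) ∧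
  (36 / ε ^ 2 ≤ l n → |(reps s n : ℝ) - l n * Real.log N| ≤ ε * (l n * Real.log N))

open Classical in
/-- The number of the integers `N < n ≤ 2 N`, `n ≡ ρ` modulo `M`, with at most `x` representations. -/
noncomputable def few {m : ℕ} (N M ρ : ℕ) (s : Fin m → ℕ) (x : ℝ) : ℕ :=
  ((Ioc N (2 * N)).filter fun n => n ≡ ρ [MOD M] ∧ (reps s n : ℝ) ≤ x).card

open Classical in
/-- The number of the integers `N < n ≤ 2 N`, `n ≡ ρ` modulo `M`, with at least `x` representations. -/
noncomputable def many {m : ℕ} (N M ρ : ℕ) (s : Fin m → ℕ) (x : ℝ) : ℕ :=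
  ((Ioc N (2 * N)).filter fun n => n ≡ ρ [MOD M] ∧ x ≤ (reps s n : ℝ)).card

/-- The numbers of representations in a residue class. -/
def Sharp {m : ℕ} (N M ρ : ℕ) (l ε : ℝ) (s : Fin m → ℕ) : Prop :=
  (∀ x : ℝ, 0 ≤ x → x ≤ l → (few N M ρ s (x * Real.log N) : ℝ) ≤ (N : ℝ) ^ (1 - rate l x + ε) ∧
    (rate l x ≤ 1 - ε → (N : ℝ) ^ (1 - rate l x - ε) ≤ (few N M ρ s (x * Real.log N) : ℝ))) ∧
  (∀ x : ℝ, l ≤ x → (many N M ρ s (x * Real.log N) : ℝ) ≤ (N : ℝ) ^ (1 - rate l x + ε) ∧
    (rate l x ≤ 1 - ε → (N : ℝ) ^ (1 - rate l x - ε) ≤ (many N M ρ s (x * Real.log N) : ℝ))) ∧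
  (1 + ε ≤ l → ∃ n : ℕ, N < n ∧ n ≤ 2 * N ∧ n ≡ ρ [MOD M] ∧ (reps s n : ℝ) ≤ l * Real.log N ∧
    1 - ε ≤ rate l (reps s n / Real.log N)) ∧
  ∃ n : ℕ, N < n ∧ n ≤ 2 * N ∧ n ≡ ρ [MOD M] ∧ l * Real.log N ≤ (reps s n : ℝ) ∧ 1 - ε ≤ rate l (reps s n / Real.log N)

open Classical in
/-- Let `Λ ≥ 1` and `0 < ε ≤ 1`. There is `w₀` such that the following holds for all `a`, all `w ≥ w₀` and every modulus `M` whose
prime divisors are exactly the primes up to `w`. For all large `N`, all `q ≥ N / log^a N`, all `m`, all residues `c j` and all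
windows `(b j, b j + q]` in `(0, N / 2]`, `j < m`, with the notation `l n = level n = size n / log^2 N`:

**(A)** For all but a proportion of at most `N^(-ε/4)` of the vectors `s` of summands `s j ≡ c j` modulo `M` in the windows the
following holds for EVERY integer `N < n ≤ 2 N`: if `l n ≤ Λ`, then `rate (l n) (R / log N) ≤ 1 + ε`, where `R` is the number of
representations `n = s j + prime`, and if `l n ≥ 36 / ε^2`, then `|R - l n log N| ≤ ε l n log N`.

**(B)** For every residue `ρ` with `1 / Λ ≤ l ≤ Λ`, `l = l ρ`, the following holds for all but a proportion of at most `ε` of the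
vectors `s`: the number of the `N < n ≤ 2 N`, `n ≡ ρ` modulo `M`, with at most `x log N` representations, `0 ≤ x ≤ l` (with at least
`x log N` representations, `x ≥ l`) is at most `N^(1 - rate l x + ε)`, and it is at least `N^(1 - rate l x - ε)` if
`rate l x ≤ 1 - ε`. There are `n ≡ ρ` with `R ≥ l log N` and `rate l (R / log N) ≥ 1 - ε`, and if `l ≥ 1 + ε`, there are `n ≡ ρ`
with `R ≤ l log N` and `rate l (R / log N) ≥ 1 - ε`. (So both bounds in (A) are sharp in every residue class.)

**(C)** If the residues are the first `m` primes (`c 0 = 2`, `c 1 = 3`, ...), `m` large, then `|size n - singular n * m| ≤ ε m`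
for every even `n`. -/
theorem result (Λ ε : ℝ) (hΛ : 1 ≤ Λ) (hε : 0 < ε) (hε1 : ε ≤ 1) : ∃ w₀ : ℕ, ∀ a w : ℕ, w₀ ≤ w → ∀ M : ℕ, 1 ≤ M →
    (∀ p : ℕ, p.Prime → (p ∣ M ↔ p ≤ w)) → ∃ N₀ : ℕ, ∀ N : ℕ, N₀ ≤ N → ∀ q : ℕ, (N : ℝ) ≤ q * Real.log N ^ a →
    ∀ (m : ℕ) (c b : Fin m → ℕ), (∀ j, 2 * (b j + q) ≤ N) →
      (((summands M q c b).filter fun s => ¬ Everywhere N Λ ε (level N M c) s).card : ℝ) ≤
        (N : ℝ) ^ (-(ε / 4)) * (summands M q c b).card ∧
      (∀ ρ : ℕ, 1 / Λ ≤ level N M c ρ → level N M c ρ ≤ Λ →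
        (((summands M q c b).filter fun s => ¬ Sharp N M ρ (level N M c ρ) ε s).card : ℝ) ≤
          ε * (summands M q c b).card) ∧
      (N₀ ≤ m → (∀ j, c j = Nat.nth Nat.Prime j) → ∀ n : ℕ, Even n → |size M c n - singular w n * m| ≤ ε * m) := by
  obtain ⟨w₀, hw₀⟩ := Pool.Agent.Run7.h931.GB.cls_law Λ ε hΛ hε hε1
  refine ⟨max w₀ 2, fun a w hw M hM1 hM => ?_⟩
  have hw2 : 2 ≤ w := (le_max_right _ _).trans hw
  obtain ⟨m₀, hm₀⟩ := Filter.eventually_atTop.1 (Pool.Agent.Run7.h931.GB.size_all w M hw2 hM1 hM ε hε)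
  have hφ : (0 : ℝ) < Nat.totient M := by exact_mod_cast Nat.totient_pos.2 hM1
  have hP : (M : ℝ) / Nat.totient M = Pool.Agent.Run7.h931.RS.Pw w := by
    rw [← Pool.Agent.Run7.h931.RL.tot_P w M hM1 hM]
    field_simp
  have hP1 := Pool.Agent.Run7.h931.RS.one_le_Pw w
  obtain ⟨N₀, hN₀⟩ := Filter.eventually_atTop.1 ((hw₀ a w ((le_max_left _ _).trans hw) M hM1 hM).and
    ((Pool.Agent.Run7.h931.GB.every_n a w M hM1 hM Λ ε hΛ hε hε1).and ((Filter.eventually_ge_atTop 3).and
      (Pool.Agent.Run7.h931.RS.ev_log 1))))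
  refine ⟨max N₀ m₀, fun N hN q hq m c b hb => ?_⟩
  obtain ⟨g1, g2, g3, g4⟩ := hN₀ N ((le_max_left _ _).trans hN)
  have hL0 : 0 < Real.log (N : ℝ) := by linarith
  have hL2 : Real.log (N : ℝ) ^ 2 ≠ 0 := by positivity
  have hN0 : (0 : ℝ) < N := by exact_mod_cast (by omega : 0 < N)
  -- the number of the residues
  have hco : ∀ n : ℕ, ∀ v : ℕ, IsCoprime ((n : ℤ) - v) (M : ℤ) ↔ (n + (M - 1) * v).Coprime M := by
    intro n v
    rw [← Nat.isCoprime_iff_coprime]
    have h1 : ((n + (M - 1) * v : ℕ) : ℤ) = (n : ℤ) - v + M * v := by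
      rw [Nat.cast_add, Nat.cast_mul, Nat.cast_sub hM1]
      push_cast
      ring
    rw [h1]
    exact (IsCoprime.add_mul_left_left_iff).symm
  have hsize : ∀ n, size M c n = Pool.Agent.Run7.h931.RS.Pw w * Pool.Agent.Run7.h931.GB.lg M c n := by
    intro n
    unfold size Pool.Agent.Run7.h931.GB.lg
    rw [hP]
    congr 2
    congr 1
    apply filter_congr
    intro j _
    exact hco n (c j)
  have hcard : ((summands M q c b).card : ℝ) = Pool.Agent.Run7.h931.GB.Qt M q c b := Pool.Agent.Run7.h931.GB.Om_card M q c b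
  have hl : ∀ n, Pool.Agent.Run7.h931.RS.Pw w * Pool.Agent.Run7.h931.GB.lg M c n = level N M c n * Real.log N ^ 2 := by
    intro n
    unfold level
    rw [div_mul_cancel₀ _ hL2, hsize]
  refine ⟨?_, ?_, ?_⟩
  · rcases Nat.eq_zero_or_pos m with h0 | h0
    · have h1 : ((summands M q c b).filter fun s => ¬ Everywhere N Λ ε (level N M c) s) = ∅ := by
        rw [filter_eq_empty_iff]
        intro s _
        rw [not_not]
        subst h0
        intro n _ _
        have h2 : level N M c n = 0 := by
          unfold level size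
          simp
        have h3 : (reps s n : ℝ) = 0 := by
          unfold reps
          simp
        rw [h2, h3]
        refine ⟨fun _ => ?_, fun h => ?_⟩
        · unfold rate
          simp
          linarith
        · simp
      rw [h1, card_empty, Nat.cast_zero]
      exact mul_nonneg (Real.rpow_pos_of_pos hN0 _).le (Nat.cast_nonneg _)
    · have hqN : q ≤ N := by
        have := hb ⟨0, h0⟩
        omega
      rw [hcard]
      exact g2 q hq hqN m c b hb (level N M c) hl
  · intro ρ hl1 hl2
    obtain ⟨l, hld⟩ : ∃ l, l = level N M c ρ := ⟨_, rfl⟩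
    rw [← hld] at hl1 hl2 ⊢
    have hl0 : 0 < l := lt_of_lt_of_le (by positivity) hl1
    have hm : 0 < m := by
      by_contra h0
      have h1 : m = 0 := by omega
      subst h1
      have h2 : level N M c ρ = 0 := by
        unfold level size
        simp
      rw [h2] at hld
      linarith
    have hqN : q ≤ N := by
      have := hb ⟨0, hm⟩
      omega
    have hmod : ρ % M ≡ ρ [MOD M] := Nat.mod_modEq _ _
    have k1 := g1 q hq hqN m c b hb (ρ % M) (Nat.mod_lt _ hM1) l (by
      rw [Pool.Agent.Run7.h931.GB.lg_mod M c (ρ % M) ρ hmod, hl, hld]) hl1 hl2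
    rw [hcard]
    refine le_trans ?_ k1
    apply Nat.cast_le.2
    apply card_le_card
    intro s hs
    rw [mem_filter] at hs ⊢
    refine ⟨hs.1, fun h => hs.2 ?_⟩
    obtain ⟨h1, h2, h3, h4⟩ := h
    have hrate : ∀ x : ℝ, rate l x = l * Pool.Agent.Run7.h931.EX.ent (x / l) := by
      intro x
      unfold rate Pool.Agent.Run7.h931.EX.ent
      field_simp
    have hcg : ∀ n, n ∈ Pool.Agent.Run7.h931.GB.cg N M (ρ % M) ↔ n ∈ Ioc N (2 * N) ∧ n ≡ ρ [MOD M] := by
      intro n
      unfold Pool.Agent.Run7.h931.GB.cg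
      rw [mem_filter]
      exact and_congr Iff.rfl ⟨fun h => h.trans hmod, fun h => h.trans hmod.symm⟩
    have hLo : ∀ x : ℝ, Pool.Agent.Run7.h931.GB.Lo (Pool.Agent.Run7.h931.GB.cg N M (ρ % M)) s x = few N M ρ s x := by
      intro x
      unfold Pool.Agent.Run7.h931.GB.Lo few
      congr 1
      ext n
      rw [mem_filter, mem_filter, hcg, and_assoc]
      rfl
    have hHi : ∀ x : ℝ, Pool.Agent.Run7.h931.GB.Hi (Pool.Agent.Run7.h931.GB.cg N M (ρ % M)) s x = many N M ρ s x := by
      intro x
      unfold Pool.Agent.Run7.h931.GB.Hi many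
      congr 1
      ext n
      rw [mem_filter, mem_filter, hcg, and_assoc]
      rfl
    have hx : ∀ x : ℝ, x / l * (l * Real.log N) = x * Real.log N := by
      intro x
      field_simp
    refine ⟨fun x hx0 hx1 => ?_, fun x hx1 => ?_, fun hl' => ?_, ?_⟩
    · have h5 := h1 (x / l) (by positivity) ((div_le_one hl0).2 hx1)
      rw [hx, ← hrate, hLo] at h5
      exact ⟨h5.2, h5.1⟩
    · have h5 := h2 (x / l) ((one_le_div hl0).2 hx1)
      rw [hx, ← hrate, hHi] at h5
      exact ⟨h5.2, h5.1⟩
    · obtain ⟨n, hn, h5, h6⟩ := h3 hl'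
      rw [hcg, mem_Ioc] at hn
      exact ⟨n, hn.1.1, hn.1.2, hn.2, h5, h6⟩
    · obtain ⟨n, hn, h5, h6⟩ := h4
      rw [hcg, mem_Ioc] at hn
      exact ⟨n, hn.1.1, hn.1.2, hn.2, h5, h6⟩
  · intro hm hc n hn
    have hc' : c = fun j : Fin m => Nat.nth Nat.Prime j := funext hc
    have h1 := hm₀ m ((le_max_right _ _).trans hm) n hn
    rw [hsize, hc']
    exact h1

end Pool.Agent.Results.MP_629a14_nt.SharpOrderOfMagnitude
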