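import Pool.Agent.Run7.h90.AU.Rec
import Pool.Agent.Run7.h90.AU.Tot

set_option autoImplicit false

/-!
# Goldbach decompositions `E = q + q'` with `q` running through the values of a linear recurrence modulo a prime

Let `p` be a large prime and `u n = c_1 g_1 ^ n + ... + c_k g_k ^ n` modulo `p`, where `c ≠ 0` and the orders of the `g_i`
and of the quotients `g_i / g_j` are at least `p ^ η`. For all even `E ≤ p ^ A` at once, the theorem counts the
decompositions `E = q + q'` with `q` congruent to one of `u 0, ..., u (N - 1)` modulo `p`, `N ≥ p ^ η`, `q` in an interval of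
length `L ≥ p ^ (1 - δ)`, in particular `0 < q < E`.

Proof: the exponential sums over the recurrence are smaller than `N` by a power of `p` (theorem of Bourgain, Glibichuk and
Konyagin and its extension to vectors, `Agent/Run7/h823/BK9`), so the integers `q` are equidistributed in the residue
classes modulo all integers up to `p ^ δ`; then the fundamental lemma of the sieve, uniformly in the polynomial
`X (E - X)`, and a uniform comparison of the sieve product with the singular series (`Agent/Run7/h90/AU`).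
-/

namespace Pool.Agent.Results.MP_629a14_nt.SummandsInRecurrences

open Finset
open scoped Classical

/-- The twin prime constant `C₂ = ∏_{p > 2} (1 - 1 / (p - 1) ^ 2)`: the infimum of the decreasing partial products. -/
noncomputable def twinConstant : ℝ :=
  ⨅ z : ℕ, ∏ p ∈ (Icc 3 z).filter Nat.Prime, (1 - 1 / ((p : ℝ) - 1) ^ 2)

/-- The singular series `2 C₂ ∏_{p ∣ n, p > 2} (p - 1) / (p - 2)`. -/
noncomputable def singular (n : ℕ) : ℝ :=
  2 * twinConstant * ∏ p ∈ n.primeFactors.filter (fun p => 2 < p), ((p : ℝ) - 1) / ((p : ℝ) - 2)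

/-- The recurrence `u n = c_1 g_1 ^ n + ... + c_k g_k ^ n` modulo `p`. -/
def recurrence (p k : ℕ) (c : Fin k → ZMod p) (g : Fin k → (ZMod p)ˣ) (n : ℕ) : ZMod p :=
  ∑ i, c i * (g i : ZMod p) ^ n

/-- The standing assumptions on the recurrence, on `N` and on `L`. -/
def Setting (η δ : ℝ) (p k : ℕ) (c : Fin k → ZMod p) (g : Fin k → (ZMod p)ˣ) (N L : ℕ) : Prop :=
  c ≠ 0 ∧ (∀ i, (p : ℝ) ^ η ≤ orderOf (g i)) ∧ (∀ i j, i ≠ j → (p : ℝ) ^ η ≤ orderOf (g i / g j)) ∧
    (p : ℝ) ^ η ≤ N ∧ (p : ℝ) ^ (1 - δ) ≤ L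

/-- The number of the decompositions `E = q + q'` with the property `P q q'`, `M < q ≤ M + L`, `q < E`, each counted with
the number of the `n < N` for which `q ≡ u n` modulo `p`. -/
noncomputable def decompositions (p : ℕ) (u : ℕ → ZMod p) (E N M L : ℕ) (P : ℕ → ℕ → Prop) : ℕ :=
  ((range N ×ˢ Ioc M (M + L)).filter fun x =>
    ((x.2 : ℕ) : ZMod p) = u x.1 ∧ x.2 < E ∧ P x.2 (E - x.2)).card

/-- The integer `n ≠ 0` has at most `r` prime factors (with multiplicity), all at least `y`. -/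
def Almost (r : ℕ) (y : ℝ) (n : ℕ) : Prop :=
  n ≠ 0 ∧ n.primeFactorsList.length ≤ r ∧ ∀ l : ℕ, l ∈ n.primeFactorsList → y ≤ l

theorem decompositions_eq (p : ℕ) (u : ℕ → ZMod p) (E N M L : ℕ) (hE : M + L < E)
    (P : ℕ → ℕ → Prop) (Q : ℕ × ℕ → Prop) [DecidablePred Q] (hPQ : ∀ n q : ℕ, q ≠ 0 → q < E → (P q (E - q) ↔ Q (n, q))) :
    decompositions p u E N M L P =
      ((Pool.Agent.Run7.h90.AU.prs p (range N) u M L).filter Q).card := by
  unfold decompositions Pool.Agent.Run7.h90.AU.prs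
  congr 1
  ext x
  simp only [mem_filter, mem_product, mem_Ioc]
  constructor
  · rintro ⟨⟨h1, h2, h3⟩, h4, h5, h6⟩
    exact ⟨⟨⟨h1, h2, h3⟩, h4⟩, (hPQ x.1 x.2 (by omega) h5).1 h6⟩
  · rintro ⟨⟨⟨h1, h2, h3⟩, h4⟩, h5⟩
    exact ⟨⟨h1, h2, h3⟩, h4, by omega, (hPQ x.1 x.2 (by omega) (by omega)).2 h5⟩

theorem natAbs_eq {E q : ℕ} (h : q < E) : ((E : ℤ) + (-1) * (q : ℤ)).natAbs = E - q := by
  omega

theorem dvd_iff {E q : ℕ} (h : q < E) (l : ℕ) :
    (l : ℤ) ∣ (q : ℤ) * ((E : ℤ) + (-1) * (q : ℤ)) ↔ l ∣ q * (E - q) := by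
  have e : (q : ℤ) * ((E : ℤ) + (-1) * (q : ℤ)) = ((q * (E - q) : ℕ) : ℤ) := by
    push_cast [Nat.cast_sub h.le]
    ring
  rw [e]
  exact Int.natCast_dvd_natCast

theorem result (k : ℕ) (η A : ℝ) (hη : 0 < η) (hA : 1 ≤ A) :
    (∃ δ : ℝ, 0 < δ ∧ ∀ b : ℕ, 1 ≤ b → ∃ P₀ : ℝ, ∀ p : ℕ, p.Prime → P₀ ≤ p →
      ∀ (c : Fin k → ZMod p) (g : Fin k → (ZMod p)ˣ) (N L : ℕ), Setting η δ p k c g N L →
      ∀ E M z : ℕ, 2 ∣ E → M + L < E → (E : ℝ) ≤ (p : ℝ) ^ A →
      Real.log p ≤ z → (z : ℝ) ≤ (p : ℝ) ^ (δ / b) →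
      |(decompositions p (recurrence p k c g) E N M L
          (fun q q' => ∀ l : ℕ, l.Prime → l ≤ z → ¬ l ∣ q * q') : ℝ) -
          Real.exp (-(2 * Real.eulerMascheroniConstant)) *
            (singular E * (N * ((L : ℝ) / p)) / Real.log z ^ 2)| ≤
        (1 / 2) ^ b * (Real.exp (-(2 * Real.eulerMascheroniConstant)) *
            (singular E * (N * ((L : ℝ) / p)) / Real.log z ^ 2))) ∧
    (∃ (r : ℕ) (δ K : ℝ), 0 < δ ∧ 0 < K ∧ ∃ P₀ : ℝ, ∀ p : ℕ, p.Prime → P₀ ≤ p →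
      ∀ (c : Fin k → ZMod p) (g : Fin k → (ZMod p)ˣ) (N L : ℕ), Setting η δ p k c g N L →
      ∀ E M : ℕ, 2 ∣ E → M + L < E → (E : ℝ) ≤ (p : ℝ) ^ A →
      (E : ℝ) / E.totient * (N * ((L : ℝ) / p)) / Real.log p ^ 2 ≤
        K * (decompositions p (recurrence p k c g) E N M L
          (fun q q' => Almost r ((p : ℝ) ^ δ) q ∧ Almost r ((p : ℝ) ^ δ) q') : ℝ) ∧
      (decompositions p (recurrence p k c g) E N M L (fun q q' => q.Prime ∧ q'.Prime) : ℝ) ≤
        K * ((E : ℝ) / E.totient * (N * ((L : ℝ) / p)) / Real.log p ^ 2)) := by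
  obtain ⟨ε, hε, P₁, hsmall⟩ := Pool.Agent.Run7.h90.AU.lrec_small k η hη
  have hsing : ∀ n : ℕ, singular n = Pool.Agent.H560R3.GB.sing n := fun n => rfl
  constructor
  · obtain ⟨δ, hδ, -, -, H⟩ := Pool.Agent.Run7.h90.AU.pair_countL ε A hε (by linarith)
    refine ⟨δ, hδ, fun b hb => ?_⟩
    obtain ⟨P₂, H⟩ := H b hb
    refine ⟨max P₁ P₂, ?_⟩
    intro p hpp hpP c g N L hS E M z hE2 hME hEA hz1 hz2
    have hfact : Fact p.Prime := ⟨hpp⟩
    obtain ⟨hc, hg, hgg, hN, hL1⟩ := hS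
    have hP1 : P₁ ≤ p := by
      have := (le_max_left _ _).trans hpP
      exact_mod_cast this
    have hsm := hsmall p hP1 c g N hc hg hgg hN
    have hE0 : E ≠ 0 := by omega
    have hFr : ∀ l : ℕ, l.Prime → Run7.h870.LI.rr
        (Pool.Agent.Run7.h90.AP.QF (Pool.Agent.Run7.h90.AU.FL E (-1))) l = if l ∣ E then 1 else 2 := by
      intro l hl
      have h := Pool.Agent.Run7.h90.AU.FL_rr (a := (E : ℤ)) (d := -1)
        (isCoprime_one_right.neg_right) l hl
      rw [h]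
      have e : ((E : ℤ) * -1).natAbs = E := by omega
      rw [e]
    have h := H p ((le_max_right _ _).trans hpP) (Pool.Agent.Run7.h90.AU.FL E (-1)) E
      (Pool.Agent.Run7.h90.AU.FL_deg _ _) hE0 hE2 hEA hFr ℕ
      (range N) _ hsm M L z hL1 hz1 hz2
    have hX : Pool.Agent.Run7.h90.AU.X₂ p (range N).card L E (Real.log z) =
        Real.exp (-(2 * Real.eulerMascheroniConstant)) *
          (singular E * (N * ((L : ℝ) / p)) / Real.log z ^ 2) := by
      unfold Pool.Agent.Run7.h90.AU.X₂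
      rw [card_range, hsing]
      ring
    rw [hX] at h
    rw [decompositions_eq p _ E N M L hME _ (fun x => ∀ l : ℕ, l.Prime → l ≤ z →
      ¬ Pool.Agent.Run7.h90.AP.QF (Pool.Agent.Run7.h90.AU.FL E (-1)) l x.2)]
    · exact h
    · intro n q hq0 hq
      unfold Pool.Agent.Run7.h90.AP.QF
      simp only [Pool.Agent.Run7.h90.AU.FL_eval, dvd_iff hq]
  · obtain ⟨r, δ, K, hδ, hK, P₂, H⟩ := Pool.Agent.Run7.h90.AU.lin_ordersL ε A hε hA
    have hC := Pool.Agent.Run7.h90.AU.C₂_pos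
    obtain ⟨K', hK'⟩ : ∃ K' : ℝ, K' = max K (K / Pool.Agent.H560R3.GB.C₂) := ⟨_, rfl⟩
    have hK'1 : K ≤ K' := by rw [hK']; exact le_max_left _ _
    have hK'2 : K / Pool.Agent.H560R3.GB.C₂ ≤ K' := by rw [hK']; exact le_max_right _ _
    refine ⟨r, δ, K', hδ, lt_of_lt_of_le hK hK'1, max (max P₁ P₂) 2, ?_⟩
    intro p hpp hpP c g N L hS E M hE2 hME hEA
    have hfact : Fact p.Prime := ⟨hpp⟩
    obtain ⟨hc, hg, hgg, hN, hL1⟩ := hS
    have hP1 : P₁ ≤ p := by
      have := (le_max_left _ _).trans ((le_max_left _ _).trans hpP)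
      exact_mod_cast this
    have hp1 : (1 : ℝ) ≤ p := by exact_mod_cast hpp.one_le
    have hsm := hsmall p hP1 c g N hc hg hgg hN
    have hE0 : E ≠ 0 := by omega
    have h := H p ((le_max_right _ _).trans ((le_max_left _ _).trans hpP)) (E : ℤ) (-1)
      (by exact_mod_cast hE0) (by norm_num) (isCoprime_one_right.neg_right)
      (by
        have : ((2 : ℕ) : ℤ) ∣ (E : ℤ) := Int.natCast_dvd_natCast.2 hE2
        exact Dvd.dvd.mul_right (by exact_mod_cast this) _)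
      (by push_cast; rw [Nat.abs_cast]; exact hEA)
      (by push_cast; rw [abs_neg, abs_one]; exact Real.one_le_rpow hp1 (by linarith)) ℕ (range N) _ hsm
      M L (by
        have : ((M + L : ℕ) : ℝ) ≤ E := by exact_mod_cast hME.le
        push_cast at this
        linarith) hL1
    have e : ((E : ℤ) * -1).natAbs = E := by omega
    rw [card_range, e] at h
    obtain ⟨h3, h4⟩ := h
    have hrec : recurrence p k c g = Pool.Agent.Run7.h90.AU.lrec p k c g := rfl
    rw [hrec]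
    rw [decompositions_eq p _ E N M L hME (fun q q' => Almost r ((p : ℝ) ^ δ) q ∧
      Almost r ((p : ℝ) ^ δ) q') (fun x => x.2.primeFactorsList.length ≤ r ∧
          (∀ l : ℕ, l ∈ x.2.primeFactorsList → (p : ℝ) ^ δ ≤ l) ∧
          ((E : ℤ) + (-1) * x.2).natAbs ≠ 0 ∧ ((E : ℤ) + (-1) * x.2).natAbs.primeFactorsList.length ≤ r ∧
          ∀ l : ℕ, l ∈ ((E : ℤ) + (-1) * x.2).natAbs.primeFactorsList → (p : ℝ) ^ δ ≤ l),
      decompositions_eq p _ E N M L hME (fun q q' => q.Prime ∧ q'.Prime)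
      (fun x => x.2.Prime ∧ ((E : ℤ) + (-1) * x.2).natAbs.Prime)]
    · obtain ⟨t1, t2⟩ := Pool.Agent.Run7.h90.AU.sing_totient hE0 hE2
      obtain ⟨Y, hY⟩ : ∃ Y : ℝ, Y = (N * ((L : ℝ) / p)) / Real.log p ^ 2 := ⟨_, rfl⟩
      have hY0 : 0 ≤ Y := by rw [hY]; positivity
      have e1 : Pool.Agent.H560R3.GB.sing E * (N * ((L : ℝ) / p)) / Real.log p ^ 2 =
          Pool.Agent.H560R3.GB.sing E * Y := by rw [hY]; ring
      have e2 : (E : ℝ) / E.totient * (N * ((L : ℝ) / p)) / Real.log p ^ 2 =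
          (E : ℝ) / E.totient * Y := by rw [hY]; ring
      rw [e1] at h3 h4
      rw [e2]
      have hT0 : 0 ≤ (E : ℝ) / E.totient := by positivity
      constructor
      · obtain ⟨w, hw⟩ : ∃ w : ℝ, w = (((Pool.Agent.Run7.h90.AU.prs p (range N)
          (Pool.Agent.Run7.h90.AU.lrec p k c g) M L).filter fun x =>
          x.2.primeFactorsList.length ≤ r ∧ (∀ l : ℕ, l ∈ x.2.primeFactorsList → (p : ℝ) ^ δ ≤ l) ∧
          ((E : ℤ) + (-1) * x.2).natAbs ≠ 0 ∧ ((E : ℤ) + (-1) * x.2).natAbs.primeFactorsList.length ≤ r ∧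
          ∀ l : ℕ, l ∈ ((E : ℤ) + (-1) * x.2).natAbs.primeFactorsList → (p : ℝ) ^ δ ≤ l).card : ℝ) :=
          ⟨_, rfl⟩
        have hw0 : 0 ≤ w := by rw [hw]; exact Nat.cast_nonneg _
        have h5 : (E : ℝ) / E.totient * Y ≤ K' * w := by
          rw [← hw] at h3
          have h6 := mul_le_mul_of_nonneg_right t1 hY0
          have h7 : (E : ℝ) / E.totient * Y ≤ K / Pool.Agent.H560R3.GB.C₂ * w := by
            have e3 : K / Pool.Agent.H560R3.GB.C₂ * w = (K * w) / Pool.Agent.H560R3.GB.C₂ := by ring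
            rw [e3, le_div_iff₀ hC]
            linarith
          exact h7.trans (mul_le_mul_of_nonneg_right hK'2 hw0)
        rw [hw] at h5
        convert h5 using 5
      · refine h4.trans ?_
        exact mul_le_mul hK'1 (mul_le_mul_of_nonneg_right t2 hY0)
          (mul_nonneg (Pool.Agent.Run7.h90.AU.sing_pos hE0).le hY0) (by linarith)
    · intro n q hq0 hq
      simp only [natAbs_eq hq]
    · intro n q hq0 hq
      simp only [natAbs_eq hq]
      unfold Almost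
      constructor
      · rintro ⟨⟨-, h6, h7⟩, h8⟩
        exact ⟨h6, h7, h8⟩
      · rintro ⟨h6, h7, h8⟩
        exact ⟨⟨hq0, h6, h7⟩, h8⟩

end Pool.Agent.Results.MP_629a14_nt.SummandsInRecurrences
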