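import Pool.Agent.Run7.h673.SP.TwoL
import Pool.Agent.Run7.h673.SP.Tcl
import Pool.Agent.TH894.SM0

/-!
# The order of magnitude of the Goldbach representation numbers of all multiples of the integers near the values of functions of superpolynomial growth

For almost all `n`, ALL the even multiples `h m` (`h ≤ log ^ J N`) of ALL the integers `m` near
`c₀ + κ ⌊exp (φ (log n))⌋`, for instance `φ y = γ y ^ β` with `1 < β < 3 / 2`, have the number of representations as a sum
of two primes predicted by Hardy and Littlewood, in all windows, and this number has the order of magnitude asked for in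
the problem.

Definitions used (starting file `Pool.Agent.H560R3.GB.Defs`): `C₂`: the twin prime constant
`∏_{p > 2} (1 - 1 / (p - 1) ^ 2)`; `sing m`: the singular series `2 C₂ ∏_{p ∣ m, p > 2} (p - 1) / (p - 2)`. From Mathlib:
`ContDiffAt ℝ ⊤`: infinitely differentiable at a point; `iteratedDeriv m f`: the derivative of order `m`; `⌊y⌋₊`: the
integer part of `y`, and `0` for `y < 0`.

Method: the characteristic function of the integer part of `exp (φ (log n))`, for `n` in intervals `(y, x]` of a length of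
at most `x / log x`, is small at all frequencies which are not close to integers (Vinogradov's method of bilinear
exponential sums with the mean value theorem in the form of a starting file; files `Pool.Agent.Run7.h673.SP`), so the
large spectrum of all the multiples of the values is thin (`Pool.Agent.Run7.h673.SP.Tcl`). The passage from a thin large
spectrum to Goldbach representations is from the starting files (`Pool.Agent.N625.PT.t_windows`).
-/

set_option autoImplicit false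

namespace Pool.Agent.Results.MP_629a14_nt.SuperpolynomialMultiples

open Finset
open Pool.Agent.H560R3.GB (sing C₂)

/-- The conditions on `φ` for the growth of `f t = exp (φ (log t))`: for some `δ > 0`, `C` and `L₀` and all `y > L₀` the
function `φ` is infinitely differentiable at `y`, `φ y > 0`, `(1 + δ) φ y ≤ y φ' y`, `φ y ≤ y ^ (3 / 2 - δ)`, and
`|φ⁽ᵐ⁾ y| ≤ m! φ y (C / y) ^ m` for all `m ≥ 1`. -/
def Rapid (φ : ℝ → ℝ) : Prop :=
  ∃ δ C L₀ : ℝ, 0 < δ ∧ ∀ y > L₀, ContDiffAt ℝ ((⊤ : ℕ∞) : WithTop ℕ∞) φ y ∧ 0 < φ y ∧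
    (1 + δ) * φ y ≤ y * deriv φ y ∧ φ y ≤ y ^ (3 / 2 - δ) ∧
    ∀ m : ℕ, 1 ≤ m → |iteratedDeriv m φ y| ≤ m.factorial * φ y * (C / y) ^ m

/-- `(y, x]` is an admissible interval of the scale `N`: `x / log ^ a N ≤ x - y ≤ x / log x`, and
`exp (φ (log n)) ≤ N ≤ exp (φ (log x)) log ^ a N` for `y < n ≤ x`. -/
def Interval (φ : ℝ → ℝ) (a N x y : ℕ) : Prop :=
  y < x ∧ (x : ℝ) - x / Real.log x ≤ y ∧ (x : ℝ) ≤ Real.log N ^ a * ((x : ℝ) - y) ∧
  (∀ n : ℕ, n ∈ Ioc y x → Real.exp (φ (Real.log n)) ≤ N) ∧ (N : ℝ) ≤ Real.log N ^ a * Real.exp (φ (Real.log x))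

/-- The number of primes `p`, `y₁ < p ≤ y₂`, for which `m - p` is a prime (used for `y₂ ≤ m`; for `y₁ = 0` and
`y₂ = m` this is the number of ordered representations of `m` as a sum of two primes). -/
def R (m y₁ y₂ : ℕ) : ℕ := ((Ioc y₁ y₂).filter (fun p => p.Prime ∧ (m - p).Prime)).card

/-- For all `y₁ < y₂ ≤ m` with `y₂ - y₁ ≥ m / log ^ A m`, the number `R m y₁ y₂` agrees with the prediction
`sing m * (y₂ - y₁) / log ^ 2 m` up to a relative error of at most `ε`, and lies between `(1 - ε) C₂` and `1 + ε`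
times `(y₂ - y₁) m / (φ(m) log ^ 2 m)`, where `φ` is the totient function. -/
def Holds (ε : ℝ) (A m : ℕ) : Prop :=
  ∀ y₁ y₂ : ℕ, y₁ < y₂ → y₂ ≤ m → (m : ℝ) / Real.log m ^ A ≤ (y₂ : ℝ) - y₁ →
    |(R m y₁ y₂ : ℝ) - sing m * ((y₂ : ℝ) - y₁) / Real.log m ^ 2| ≤ ε * (sing m * ((y₂ : ℝ) - y₁) / Real.log m ^ 2) ∧
    (1 - ε) * C₂ * (((y₂ : ℝ) - y₁) * m / (m.totient * Real.log m ^ 2)) ≤ R m y₁ y₂ ∧
    (R m y₁ y₂ : ℝ) ≤ (1 + ε) * (((y₂ : ℝ) - y₁) * m / (m.totient * Real.log m ^ 2))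

/-- All the positive even multiples `h m`, `1 ≤ h ≤ L ^ J`, of all the integers `m` with `|m - c| ≤ L ^ W` have the property
`Holds ε A (h m)`. -/
def Multiples (ε : ℝ) (A J W : ℕ) (L : ℝ) (c : ℤ) : Prop :=
  ∀ h : ℕ, 1 ≤ h → (h : ℝ) ≤ L ^ J → ∀ m : ℤ, ((|m - c| : ℤ) : ℝ) ≤ L ^ W → 0 < (h : ℤ) * m → 2 ∣ (h : ℤ) * m →
    Holds ε A ((h : ℤ) * m).toNat

lemma C₂_nonneg : 0 ≤ C₂ := by
  unfold C₂
  apply Real.iInf_nonneg
  intro z
  apply prod_nonneg
  intro p hp
  rw [mem_filter, mem_Icc] at hp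
  exact (Pool.Agent.TH894.SM.fac_pos p hp.1.1).le

lemma holds_of (ε : ℝ) (A : ℕ) (hε : 0 < ε) (m : ℕ) (hm : 3 ≤ m) (h2 : 2 ∣ m)
    (h : Pool.Agent.W93.PG.WinP ε A m) : Holds ε A m := by
  intro y₁ y₂ h12 hy hlen
  have h1 := h y₁ y₂ h12 hy hlen
  have e0 : Pool.Agent.W93.PG.cnt m y₁ y₂ = R m y₁ y₂ := rfl
  rw [e0] at h1
  refine ⟨h1, ?_⟩
  have hn0 : m ≠ 0 := by omega
  have hnr : (0 : ℝ) < m := by exact_mod_cast Nat.pos_of_ne_zero hn0
  have hl : 0 < Real.log m := Real.log_pos (by exact_mod_cast (by omega : 1 < m))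
  have ht : (0 : ℝ) < m.totient := by exact_mod_cast Nat.totient_pos.2 (Nat.pos_of_ne_zero hn0)
  obtain ⟨s1, s2⟩ := Pool.Agent.TH894.SM.sing_tot m hn0 h2
  have hC := C₂_nonneg
  have hy' : (y₁ : ℝ) < y₂ := by exact_mod_cast h12
  obtain ⟨Q, hQ⟩ : ∃ Q : ℝ, Q = ((y₂ : ℝ) - y₁) / Real.log m ^ 2 := ⟨_, rfl⟩
  have hQ0 : 0 < Q := by
    rw [hQ]
    apply div_pos (by linarith) (by positivity)
  have e : ((y₂ : ℝ) - y₁) * m / (m.totient * Real.log m ^ 2) = m / m.totient * Q := by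
    rw [hQ]
    field_simp
  have hHL : sing m * ((y₂ : ℝ) - y₁) / Real.log m ^ 2 = sing m * Q := by
    rw [hQ]
    ring
  rw [hHL, abs_le] at h1
  rw [e]
  constructor
  · rcases le_or_gt ε 1 with hε1 | hε1
    · have h3 : (1 - ε) * (C₂ * (m / m.totient) * Q) ≤ (1 - ε) * (sing m * Q) := by
        apply mul_le_mul_of_nonneg_left _ (by linarith)
        exact mul_le_mul_of_nonneg_right s1 hQ0.le
      have e2 : (1 - ε) * C₂ * (m / m.totient * Q) = (1 - ε) * (C₂ * (m / m.totient) * Q) := by ring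
      rw [e2]
      linarith [h1.1]
    · have h3 : (1 - ε) * C₂ * (m / m.totient * Q) ≤ 0 := by
        apply mul_nonpos_of_nonpos_of_nonneg _ (by positivity)
        exact mul_nonpos_of_nonpos_of_nonneg (by linarith) hC
      exact h3.trans (Nat.cast_nonneg _)
  · have h3 : (1 + ε) * (sing m * Q) ≤ (1 + ε) * (m / m.totient * Q) := by
      apply mul_le_mul_of_nonneg_left _ (by linarith)
      exact mul_le_mul_of_nonneg_right s2 hQ0.le
    linarith [h1.2]

open Classical in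
/-- Let `φ` satisfy the conditions `Rapid` and let `κ ≠ 0`, `A`, `J`, `W` and `ε > 0` be fixed.

**(1)** Let `a`, `B`, `U` be fixed. Let `N` be large, let `(y, x]` be an admissible interval of the scale `N`, and let
`|c₀| ≤ B N`. Then all the integers `y < n ≤ x`, with at most `(x - y) / log ^ U N` exceptions, have the following
property: ALL the positive even multiples `h m` with `h ≤ log ^ J N` of ALL the integers `m` at a distance of at most
`log ^ W N` from `c₀ + κ ⌊exp (φ (log n))⌋` have the number of representations as a sum of two primes which Hardy and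
Littlewood expect, up to a relative error of at most `ε`, and this number has the order of magnitude asked for in the
problem; the same holds for the representations with one prime in a given window, for all windows of a length of at least
`h m / log ^ A (h m)`.

**(2)** Let `U` and `c₀` be fixed. For large `X` all the positive integers `n ≤ X`, with at most `X / log ^ U X`
exceptions, have this property with `φ (log n)`, the logarithm of `exp (φ (log n))`, in place of `log N`.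

**(3)** The functions `φ y = γ y ^ β` with `γ > 0` and `1 < β < 3 / 2` satisfy the conditions `Rapid`: so (1) and (2) hold
for the superpolynomial functions `exp (γ (log n) ^ β)`. -/
theorem result :
    (∀ φ : ℝ → ℝ, Rapid φ → ∀ (κ : ℤ), κ ≠ 0 → ∀ (A J W : ℕ) (ε : ℝ), 0 < ε →
      (∀ a B U : ℕ, ∃ N₀ : ℕ, ∀ N : ℕ, N₀ ≤ N → ∀ x y : ℕ, Interval φ a N x y → ∀ c₀ : ℤ, |c₀| ≤ B * N →
        (((Ioc y x).filter fun n : ℕ =>
          ¬ Multiples ε A J W (Real.log N) (c₀ + κ * (⌊Real.exp (φ (Real.log n))⌋₊ : ℕ))).card : ℝ) ≤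
            ((x : ℝ) - y) / Real.log N ^ U) ∧
      (∀ (U : ℕ) (c₀ : ℤ), ∃ X₀ : ℕ, ∀ X : ℕ, X₀ ≤ X →
        (((Icc 1 X).filter fun n : ℕ =>
          ¬ Multiples ε A J W (φ (Real.log n)) (c₀ + κ * (⌊Real.exp (φ (Real.log n))⌋₊ : ℕ))).card : ℝ) ≤
            X / Real.log X ^ U)) ∧
    (∀ γ β : ℝ, 0 < γ → 1 < β → β < 3 / 2 → Rapid (fun y => γ * y ^ β)) := by
  refine ⟨fun φ hφ κ hκ A J W ε hε => ?_, fun γ β h1 h2 h3 => Pool.Agent.Run7.h673.SP.rapid_pow γ β h1 h2 h3⟩
  have hφ' : Pool.Agent.Run7.h673.SP.Rapid φ := hφ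
  obtain ⟨δ, C, L₀, hf⟩ := hφ'.fast
  obtain ⟨h1, h2⟩ := Pool.Agent.Run7.h673.SP.twoL hφ' (fun L c v => Multiples ε A J W L (c + κ * (v : ℕ)))
    (fun L L' c v h0 hL h j hj1 hj2 m hm => h j hj1 (hj2.trans (pow_le_pow_left₀ h0 hL J)) m
      (hm.trans (pow_le_pow_left₀ h0 hL W))) (by
      intro a B U
      obtain ⟨k₀, h0⟩ := Pool.Agent.N625.PT.t_windows (hf.tcls (a + 1) κ hκ) B J W A (U + 1) 3 ε hε (Holds ε A)
        (fun m hm h2 hwin => holds_of ε A hε m hm h2 hwin)
      refine ⟨k₀, fun k hk p hp c₀ hc₀ => ?_⟩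
      refine h0 k hk p hp c₀ hc₀ (fun v => Multiples ε A J W (k : ℝ) (c₀ + κ * (v : ℕ))) (fun v hv => ?_)
      unfold Multiples at hv
      push Not at hv
      obtain ⟨j, q1, q2, m, q3, q4, q5, q6⟩ := hv
      have e : (j : ℤ) * (c₀ + (m - (c₀ + κ * (v : ℕ))) + κ * (v : ℕ)) = j * m := by ring
      refine ⟨j, q1, by exact_mod_cast q2, m - (c₀ + κ * (v : ℕ)), by exact_mod_cast q3, ?_, ?_, ?_⟩
      · rw [e]; exact q4
      · rw [e]; exact q5
      · rw [e]; exact q6)
  refine ⟨fun a B U => ?_, h2⟩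
  obtain ⟨N₀, hN₀⟩ := h1 a B U
  exact ⟨N₀, fun N hN x y hr => hN₀ N hN x y ⟨hr.1, hr.2.1, hr.2.2.1, hr.2.2.2.1, hr.2.2.2.2⟩⟩

end Pool.Agent.Results.MP_629a14_nt.SuperpolynomialMultiples
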